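import Pool.Agent.Helper37.DG.Stmts2

set_option autoImplicit false

/-!
Module SWLD of the project DG (MP_e500b6_co): Mertens for the split primes of `x ^ 2 + D * y ^ 2`.
-/

namespace Pool.Agent.Helper37.DG

open Finset
open scoped Classical
open Pool.Agent.Helper17.SO (PP LL)

theorem swld_one (D p : ℕ) (h : Spl D p) : jacobiSym (-(D : ℤ)) p = 1 := by
  obtain ⟨hp, hd, r, hr⟩ := h
  have : Fact p.Prime := ⟨hp⟩
  rw [← jacobiSym.legendreSym.to_jacobiSym]
  have hD : ((-(D : ℤ) : ℤ) : ZMod p) ≠ 0 := by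
    intro h0
    rw [ZMod.intCast_zmod_eq_zero_iff_dvd] at h0
    have h1 : (p : ℤ) ∣ (D : ℤ) := (dvd_neg).1 h0
    have h2 : p ∣ D := by exact_mod_cast h1
    exact hd (h2.mul_left 2)
  rw [legendreSym.eq_one_iff p hD]
  refine ⟨((r : ℤ) : ZMod p), ?_⟩
  have h3 : (((r ^ 2 + (D : ℤ)) : ℤ) : ZMod p) = 0 := by
    rw [ZMod.intCast_zmod_eq_zero_iff_dvd]
    exact hr
  push_cast at h3 ⊢
  linear_combination -h3

theorem swld_nsq (D : ℕ) (hD : 1 ≤ D) : ¬ IsSquare (-(D : ℤ)) := by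
  rintro ⟨r, hr⟩
  have h1 : 0 ≤ r * r := mul_self_nonneg r
  have h2 : (1 : ℤ) ≤ D := by exact_mod_cast hD
  linarith

theorem st_SWLD (h1 : Pool.Agent.Helper17.SO.ST_MER) (h2 : Pool.Agent.Helper17.SO.ST_LEG) : ST_SWLD := by
  intro D hD
  obtain ⟨C1, hC1, k1⟩ := h1
  obtain ⟨C2, hC2, k2⟩ := h2 (-(D : ℤ)) (swld_nsq D hD)
  refine ⟨Real.exp (-((C1 + C2) / 2)) * Real.sqrt (Real.log 2), ?_, ?_⟩
  · have h2 : 0 < Real.log 2 := Real.log_pos (by norm_num)
    positivity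
  intro y z hy hyz
  have hz : 2 ≤ z := le_trans hy hyz
  have h2 : 0 < Real.log 2 := Real.log_pos (by norm_num)
  have hyR : (2 : ℝ) ≤ (y : ℝ) := by exact_mod_cast hy
  have hzR : (2 : ℝ) ≤ (z : ℝ) := by exact_mod_cast hz
  have hly : Real.log 2 ≤ Real.log y := Real.log_le_log (by norm_num) hyR
  have hlz : Real.log 2 ≤ Real.log z := Real.log_le_log (by norm_num) hzR
  have hly0 : 0 < Real.log y := lt_of_lt_of_le h2 hly
  have hlz0 : 0 < Real.log z := lt_of_lt_of_le h2 hlz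
  have b1 := (abs_le.mp (k1 y z hy hyz)).2
  have b2 := (abs_le.mp (k2 y z hy hyz)).2
  have hs0 : ∑ p ∈ PD D y z, 1 / (p : ℝ) ≤
      ∑ p ∈ PP y z, (1 / 2 * (1 / (p : ℝ)) + 1 / 2 * ((jacobiSym (-(D : ℤ)) p : ℝ) / p)) := by
    have e1 : ∑ p ∈ PD D y z, 1 / (p : ℝ) =
        ∑ p ∈ PD D y z, (1 / 2 * (1 / (p : ℝ)) + 1 / 2 * ((jacobiSym (-(D : ℤ)) p : ℝ) / p)) := by
      refine Finset.sum_congr rfl fun p hp => ?_
      unfold PD at hp
      rw [swld_one D p (Finset.mem_filter.1 hp).2]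
      push_cast
      ring
    rw [e1]
    refine Finset.sum_le_sum_of_subset_of_nonneg (Finset.filter_subset _ _) fun p _ _ => ?_
    have e2 : (-1 : ℝ) ≤ (jacobiSym (-(D : ℤ)) p : ℝ) := by
      rcases jacobiSym.trichotomy (-(D : ℤ)) p with h | h | h
      · rw [h]
        norm_num
      · rw [h]
        norm_num
      · rw [h]
        norm_num
    have e3 : 1 / 2 * (1 / (p : ℝ)) + 1 / 2 * ((jacobiSym (-(D : ℤ)) p : ℝ) / p) =
        (1 + (jacobiSym (-(D : ℤ)) p : ℝ)) / 2 * (1 / (p : ℝ)) := by ring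
    rw [e3]
    refine mul_nonneg (by linarith) ?_
    positivity
  rw [Finset.sum_add_distrib, ← Finset.mul_sum, ← Finset.mul_sum] at hs0
  have hs : ∑ p ∈ PD D y z, 1 / (p : ℝ) ≤ (C1 + C2) / 2 + LL y z / 2 := by linarith
  have ha : 0 < Real.log z / Real.log y := div_pos hlz0 hly0
  have hexp : Real.exp (LL y z / 2) = Real.sqrt (Real.log z / Real.log y) := by
    unfold LL
    rw [Real.sqrt_eq_rpow, Real.rpow_def_of_pos ha]
    congr 1
    ring
  have hsw : Real.exp (-((C1 + C2) / 2)) * (1 / Real.sqrt (Real.log z / Real.log y)) ≤ sw (PD D y z) := by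
    unfold sw
    rw [← hexp, one_div, ← Real.exp_neg, ← Real.exp_add]
    apply Real.exp_le_exp.mpr
    linarith
  refine le_trans ?_ hsw
  rw [Real.sqrt_div hlz0.le, one_div, inv_div, mul_div_assoc]
  apply mul_le_mul_of_nonneg_left _ (Real.exp_pos _).le
  apply div_le_div_of_nonneg_right (Real.sqrt_le_sqrt hly) (Real.sqrt_nonneg _)

end Pool.Agent.Helper37.DG
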