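import Pool.Agent.Helper37.DG.Stmts2

set_option autoImplicit false

namespace Pool.Agent.Helper37.DG

open Finset
open scoped Classical
open Pool.Agent.Helper17.SO (PP LL)

theorem cored_tau (a : ℕ → ℕ) (T : Finset ℕ) (hT : ∀ p ∈ T, p.Prime) :
    (∏ p ∈ T, p ^ a p).divisors.card = ∏ p ∈ T, (a p + 1) := by
  induction T using Finset.induction_on with
  | empty => simp
  | insert p T hp ih =>
    have hpp : p.Prime := hT p (Finset.mem_insert_self _ _)
    have hT' : ∀ q ∈ T, q.Prime := fun q hq => hT q (Finset.mem_insert_of_mem hq)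
    rw [Finset.prod_insert hp, Finset.prod_insert hp]
    have hc : Nat.Coprime (p ^ a p) (∏ q ∈ T, q ^ a q) := by
      apply Nat.Coprime.prod_right
      intro q hq
      apply Nat.Coprime.pow
      rw [Nat.coprime_primes hpp (hT' q hq)]
      rintro rfl
      exact hp hq
    rw [Nat.Coprime.card_divisors_mul hc, ih hT', Nat.divisors_prime_pow hpp]
    simp

theorem cored_big (m z k : ℕ) (hm : 1 ≤ m) (hz : 2 ≤ z) (hk : m < z ^ k) (F : Finset ℕ)
    (hF : F ⊆ m.primeFactors) (hb : ∀ p ∈ F, z ≤ p) :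
    ∏ p ∈ F, (m.factorization p + 1) ≤ 2 ^ k := by
  have h1 : ∏ p ∈ F, (m.factorization p + 1) ≤ 2 ^ (∑ p ∈ F, m.factorization p) := by
    rw [← Finset.prod_pow_eq_pow_sum]
    apply Finset.prod_le_prod'
    intro p _
    exact Nat.succ_le_of_lt (Nat.lt_two_pow_self)
  have h2 : z ^ (∑ p ∈ F, m.factorization p) ≤ ∏ p ∈ F, p ^ m.factorization p := by
    rw [← Finset.prod_pow_eq_pow_sum]
    apply Finset.prod_le_prod'
    intro p hp
    exact Nat.pow_le_pow_left (hb p hp) _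
  have h3 : ∏ p ∈ F, p ^ m.factorization p ∣ m := by
    have h4 : ∏ p ∈ m.primeFactors, p ^ m.factorization p = m := by
      have := Nat.prod_factorization_pow_eq_self (n := m) (by omega)
      simpa [Finsupp.prod] using this
    calc ∏ p ∈ F, p ^ m.factorization p ∣ ∏ p ∈ m.primeFactors, p ^ m.factorization p :=
          Finset.prod_dvd_prod_of_subset _ _ _ hF
      _ = m := h4
  have h5 : ∏ p ∈ F, p ^ m.factorization p ≤ m := Nat.le_of_dvd (by omega) h3
  have h6 : z ^ (∑ p ∈ F, m.factorization p) < z ^ k := by omega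
  have h7 : ∑ p ∈ F, m.factorization p < k := (Nat.pow_lt_pow_iff_right (by omega)).1 h6
  exact h1.trans (Nat.pow_le_pow_right (by norm_num) h7.le)

theorem cored_sbox (N M : ℕ) (a b : ℤ × ℤ) (ha : a ∈ box N M) (hb : b ∈ box N M) :
    a - b ∈ sbox N M := by
  simp only [box, sbox, Finset.mem_product, Finset.mem_Ico, Finset.mem_Icc, Prod.fst_sub,
    Prod.snd_sub] at *
  omega

theorem cored_nm (D N M : ℕ) (hD : 1 ≤ D) (hMN : M ≤ N) (v : ℤ × ℤ) (hv : v ∈ sbox N M) (h0 : v ≠ 0) :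
    1 ≤ nmD D v ∧ nmD D v ≤ (D + 1) * N ^ 2 := by
  simp only [sbox, Finset.mem_product, Finset.mem_Icc] at hv
  obtain ⟨⟨h1, h2⟩, h3, h4⟩ := hv
  have hMN' : (M : ℤ) ≤ N := by exact_mod_cast hMN
  have hD' : (1 : ℤ) ≤ D := by exact_mod_cast hD
  have hn : (nmD D v : ℤ) = v.1 ^ 2 + (D : ℤ) * v.2 ^ 2 := by
    unfold nmD
    rw [Int.natAbs_of_nonneg (by positivity)]
  have ha : v.1 ^ 2 ≤ (N : ℤ) ^ 2 := by
    apply sq_le_sq.2
    rw [abs_le, abs_of_nonneg (by positivity : (0 : ℤ) ≤ N)]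
    exact ⟨h1, h2⟩
  have hb : v.2 ^ 2 ≤ (N : ℤ) ^ 2 := by
    apply sq_le_sq.2
    rw [abs_le, abs_of_nonneg (by positivity : (0 : ℤ) ≤ N)]
    constructor <;> linarith
  have hs1 := sq_nonneg v.1
  have hs2 := sq_nonneg v.2
  constructor
  · by_contra hlt
    have h00 : nmD D v = 0 := by omega
    rw [h00] at hn
    have hs3 : v.2 ^ 2 ≤ (D : ℤ) * v.2 ^ 2 := by nlinarith
    push_cast at hn
    have e1 : v.1 ^ 2 = 0 := by linarith
    have e2 : v.2 ^ 2 = 0 := by linarith
    apply h0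
    have f1 : v.1 = 0 := pow_eq_zero_iff (two_ne_zero) |>.1 e1
    have f2 : v.2 = 0 := pow_eq_zero_iff (two_ne_zero) |>.1 e2
    exact Prod.ext f1 f2
  · have hs3 : (D : ℤ) * v.2 ^ 2 ≤ (D : ℤ) * (N : ℤ) ^ 2 := mul_le_mul_of_nonneg_left hb (by linarith)
    have : (nmD D v : ℤ) ≤ (D + 1) * (N : ℤ) ^ 2 := by rw [hn]; linarith
    exact_mod_cast this

theorem cored_fib (D C : ℕ) (h1 : ∀ (j : ℕ → ℤ) (A : Finset ℕ) (m : ℕ),
    (∀ p ∈ A, Spl D p ∧ (p : ℤ) ∣ j p ^ 2 + D) → 1 ≤ m →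
    ∀ S : Finset (ℤ × ℤ), (∀ v ∈ S, nmD D v = m ∧ Free j A v) →
    S.card ≤ C * ∏ p ∈ m.primeFactors.filter (fun p => Rel D p ∧ p ∉ A), (m.factorization p + 1))
    (hD : 1 ≤ D) (j : ℕ → ℤ) (y z k : ℕ) (hj : ∀ p ∈ PD D y z, (p : ℤ) ∣ j p ^ 2 + D) (R : ℝ) (hy : 2 ≤ y)
    (hyD : 2 * D ≤ y) (hyz : y ≤ z) (S : Finset (ℤ × ℤ)) (m : ℕ) (hm : 1 ≤ m) (hmk : m < z ^ k) (hR : 1 ≤ R)
    (hS : ∀ v ∈ S, nmD D v = m ∧ Free j (PD D y z) v ∧ (tau (msD D y v) : ℝ) ≤ R) :
    (S.card : ℝ) ≤ C * R * 2 ^ k := by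
  rcases S.eq_empty_or_nonempty with he | ⟨v, hv⟩
  · rw [he]
    simp
    positivity
  have hA : ∀ p ∈ PD D y z, Spl D p ∧ (p : ℤ) ∣ j p ^ 2 + D := by
    intro p hp
    refine ⟨?_, hj p hp⟩
    unfold PD at hp
    exact (Finset.mem_filter.1 hp).2
  have h2 := h1 j (PD D y z) m hA hm S (fun v hv => ⟨(hS v hv).1, (hS v hv).2.1⟩)
  set F := m.primeFactors.filter (fun p => Rel D p ∧ p ∉ PD D y z) with hF
  rw [← Finset.prod_filter_mul_prod_filter_not F (fun p => p ≤ y)] at h2
  have h3 : ∏ p ∈ F.filter (fun p => ¬ p ≤ y), (m.factorization p + 1) ≤ 2 ^ k := by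
    apply cored_big m z k hm (by omega) hmk
    · intro p hp
      simp only [hF, Finset.mem_filter] at hp
      exact hp.1.1
    · intro p hp
      simp only [hF, Finset.mem_filter] at hp
      obtain ⟨⟨hp1, hp2, hp3⟩, hp4⟩ := hp
      by_contra hlt
      apply hp3
      have hpd : ¬ p ∣ 2 * D := by
        intro hd
        have := Nat.le_of_dvd (by omega) hd
        omega
      simp only [PD, PP, Finset.mem_filter, Finset.mem_Ioc]
      refine ⟨⟨⟨by omega, by omega⟩, hp2.1⟩, hp2.1, hpd, ?_⟩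
      rcases hp2.2 with h | h
      · exact absurd h hpd
      · exact h
  have h4 : ((∏ p ∈ F.filter (fun p => p ≤ y), (m.factorization p + 1) : ℕ) : ℝ) ≤ R := by
    have h5 : ∏ p ∈ F.filter (fun p => p ≤ y), (m.factorization p + 1) ≤
        ∏ p ∈ (PP 0 y).filter (Rel D), (m.factorization p + 1) := by
      apply Finset.prod_le_prod_of_subset_of_one_le'
      · intro p hp
        simp only [hF, Finset.mem_filter] at hp
        obtain ⟨⟨hp1, hp2, hp3⟩, hp4⟩ := hp
        simp only [PP, Finset.mem_filter, Finset.mem_Ioc]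
        exact ⟨⟨⟨hp2.1.pos, hp4⟩, hp2.1⟩, hp2⟩
      · intro p _ _
        omega
    have h6 : tau (msD D y v) = ∏ p ∈ (PP 0 y).filter (Rel D), (m.factorization p + 1) := by
      unfold tau msD
      rw [(hS v hv).1]
      apply cored_tau
      intro p hp
      exact (Finset.mem_filter.1 hp).2.1
    have h7 := (hS v hv).2.2
    rw [h6] at h7
    exact le_trans (by exact_mod_cast h5) h7
  have h2' : (S.card : ℝ) ≤ C * (((∏ p ∈ F.filter (fun p => p ≤ y), (m.factorization p + 1) : ℕ) : ℝ) *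
      ((∏ p ∈ F.filter (fun p => ¬ p ≤ y), (m.factorization p + 1) : ℕ) : ℝ)) := by
    exact_mod_cast h2
  have h3' : ((∏ p ∈ F.filter (fun p => ¬ p ≤ y), (m.factorization p + 1) : ℕ) : ℝ) ≤ 2 ^ k := by
    exact_mod_cast h3
  calc (S.card : ℝ) ≤ _ := h2'
    _ ≤ C * (R * 2 ^ k) := by
        apply mul_le_mul_of_nonneg_left _ (by positivity)
        exact mul_le_mul h4 h3' (by positivity) (by linarith)
    _ = C * R * 2 ^ k := by ring

theorem st_CORED (h1 : ST_MULD) : ST_CORED := by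
  intro D hD
  obtain ⟨C, hC, h1⟩ := h1 D hD
  refine ⟨2 * C, by positivity, ?_⟩
  intro j N M P y z k c R hj hM hMN hP hn hy hyD hyz hk hc hR h4 hfr hbad
  set A := PD D y z with hA
  set q := sw A with hq
  have hq0 : 0 < q := by rw [hq]; exact Real.exp_pos _
  have hn0 : (0 : ℝ) < P.card := by exact_mod_cast hn
  set OFF := P.offDiag.filter (fun a => Free j A (a.1 - a.2)) with hOFF
  have s1 : ((P ×ˢ P).filter (fun a => Free j A (a.1 - a.2))).card ≤ OFF.card + P.card := by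
    have : (P ×ˢ P).filter (fun a => Free j A (a.1 - a.2)) ⊆ OFF ∪ P.diag := by
      intro a ha
      simp only [Finset.mem_filter, Finset.mem_product] at ha
      simp only [hOFF, Finset.mem_union, Finset.mem_filter, Finset.mem_offDiag, Finset.mem_diag]
      by_cases e : a.1 = a.2
      · exact Or.inr ⟨ha.1.1, e⟩
      · exact Or.inl ⟨⟨ha.1.1, ha.1.2, e⟩, ha.2⟩
    refine (Finset.card_le_card this).trans ((Finset.card_union_le _ _).trans ?_)
    rw [Finset.diag_card]
  have s1' : c * q * (P.card : ℝ) ^ 2 ≤ (OFF.card : ℝ) + P.card :=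
    hfr.trans (by exact_mod_cast s1)
  set V := OFF.image (fun a => a.1 - a.2) with hV
  have s2 : OFF.card ≤ P.card * V.card := by
    apply Finset.card_le_mul_card_image_of_maps_to (f := fun a => a.1 - a.2)
    · intro a ha
      exact Finset.mem_image_of_mem _ ha
    · intro d _
      apply Finset.card_le_card_of_injOn (fun a => a.1)
      · intro a ha
        simp only [hOFF, Finset.coe_filter, Set.mem_setOf_eq, Finset.mem_filter,
          Finset.mem_offDiag] at ha
        exact ha.1.1.1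
      · intro a ha b hb hab
        simp only [Finset.coe_filter, Set.mem_setOf_eq] at ha hb
        have e1 := ha.2
        have e2 := hb.2
        have e3 : a.1 = b.1 := hab
        have e4 : a.2 = b.2 := by
          have : a.1 - a.2 = b.1 - b.2 := by rw [e1, e2]
          rw [e3] at this
          exact sub_right_injective this
        exact Prod.ext e3 e4
  have s2' : (OFF.card : ℝ) ≤ P.card * V.card := by exact_mod_cast s2
  have s3 : 3 / 4 * (c * q * P.card) ≤ V.card := by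
    have e1 : (P.card : ℝ) ≤ c * q * (P.card : ℝ) ^ 2 / 4 := by nlinarith
    have e2 : 3 / 4 * (c * q * P.card) * P.card ≤ V.card * P.card := by nlinarith
    exact le_of_mul_le_mul_right e2 hn0
  set Bad := (sbox N M).filter (fun v => v ≠ 0 ∧ Free j A v ∧ R < tau (msD D y v)) with hBad
  set G := V \ Bad with hG
  have s4 : (V.card : ℝ) ≤ G.card + Bad.card := by
    have : V.card ≤ G.card + Bad.card := by
      have h : V.card - Bad.card ≤ G.card := Finset.le_card_sdiff Bad V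
      omega
    exact_mod_cast this
  have s5 : 1 / 2 * (c * q * P.card) ≤ G.card := by
    have : (Bad.card : ℝ) ≤ c / 4 * q * P.card := hbad
    nlinarith
  have s6 : ∀ v ∈ G, v ∈ sbox N M ∧ v ≠ 0 ∧ Free j A v ∧ (tau (msD D y v) : ℝ) ≤ R ∧
      nmD D v ∈ P.offDiag.image (fun a => nmD D (a.1 - a.2)) := by
    intro v hv
    rw [hG, Finset.mem_sdiff] at hv
    obtain ⟨hv1, hv2⟩ := hv
    rw [hV, Finset.mem_image] at hv1
    obtain ⟨a, ha, rfl⟩ := hv1
    rw [hOFF, Finset.mem_filter, Finset.mem_offDiag] at ha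
    have e1 : a.1 - a.2 ∈ sbox N M := cored_sbox N M _ _ (hP ha.1.1) (hP ha.1.2.1)
    have e2 : a.1 - a.2 ≠ 0 := sub_ne_zero.2 ha.1.2.2
    refine ⟨e1, e2, ha.2, ?_, ?_⟩
    · by_contra hlt
      apply hv2
      rw [hBad, Finset.mem_filter]
      exact ⟨e1, e2, ha.2, not_le.1 hlt⟩
    · apply Finset.mem_image.2
      exact ⟨a, Finset.mem_offDiag.2 ha.1, rfl⟩
  have s7 : G.card ≤ ⌊C * R * 2 ^ k⌋₊ * (P.offDiag.image (fun a => nmD D (a.1 - a.2))).card := by
    apply Finset.card_le_mul_card_image_of_maps_to (f := nmD D)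
    · intro v hv
      exact (s6 v hv).2.2.2.2
    · intro m _
      apply Nat.le_floor
      rcases (G.filter (fun v => nmD D v = m)).eq_empty_or_nonempty with he | ⟨v, hv⟩
      · rw [he]
        simp
        positivity
      · rw [Finset.mem_filter] at hv
        have e1 := cored_nm D N M hD hMN v (s6 v hv.1).1 (s6 v hv.1).2.1
        rw [hv.2] at e1
        apply cored_fib D C h1 hD j y z k hj R hy hyD hyz _ m e1.1 (by omega) hR
        intro w hw
        rw [Finset.mem_filter] at hw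
        exact ⟨hw.2, (s6 w hw.1).2.2.1, (s6 w hw.1).2.2.2.1⟩
  have s7' : (G.card : ℝ) ≤ C * R * 2 ^ k * dcD D P := by
    calc (G.card : ℝ) ≤ ((⌊C * R * 2 ^ k⌋₊ * dcD D P : ℕ) : ℝ) := by exact_mod_cast s7
      _ = (⌊C * R * 2 ^ k⌋₊ : ℝ) * dcD D P := by push_cast; ring
      _ ≤ C * R * 2 ^ k * dcD D P := by
          apply mul_le_mul_of_nonneg_right _ (by positivity)
          exact Nat.floor_le (by positivity)
  calc c * q * P.card ≤ 2 * (C * R * 2 ^ k * dcD D P) := by linarith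
    _ = 2 * C * 2 ^ k * R * dcD D P := by ring

end Pool.Agent.Helper37.DG
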